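import Mathlib

set_option autoImplicit false

namespace Pool.Agent.Results.MP_ffd784_gt.Suslin

open Set Filter Function Topology TopologicalSpace

def DSeparable (X : Type) [TopologicalSpace X] : Prop :=
  ∀ D : ℕ → Set X, (∀ n, Dense (D n)) →
    ∃ F : ℕ → Set X, (∀ n, F n ⊆ D n ∧ IsDiscrete (F n)) ∧ Dense (⋃ n, F n)

/-- height of a node -/
noncomputable def ht {T : Type} [PartialOrder T] [WellFoundedLT T] (t : T) : Ordinal :=
  IsWellFounded.rank (· < ·) t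

/-- normal infinitely splitting Suslin tree all of whose derived trees of dimension two are
special -/
def Tree2 (T : Type) [PartialOrder T] [WellFoundedLT T] : Prop :=
  (∀ t : T, IsChain (· ≤ ·) (Iic t)) ∧ Uncountable T ∧
  (∀ C : Set T, IsChain (· ≤ ·) C → C.Countable) ∧
  (∀ A : Set T, IsAntichain (· ≤ ·) A → A.Countable) ∧
  (∀ t : T, {s | t ⋖ s}.Infinite) ∧
  (∀ s t : T, ht s ≤ ht t → ∃ s', s ≤ s' ∧ ht s' = ht t) ∧
  ∀ a b : T, a ≠ b → ht a = ht b → ∃ f : T → T → ℕ, ∀ s t s' t', a ≤ s → b ≤ t → ht s = ht t →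
    s < s' → t < t' → ht s' = ht t' → f s t ≠ f s' t'

lemma dsep {X P : Type} [TopologicalSpace X] (B : P → Set X) (F : P → ℕ)
    (h1 : ∀ p, IsOpen (B p) ∧ (B p).Nonempty)
    (h2 : ∀ W, IsOpen W → W.Nonempty → ∃ p, B p ⊆ W)
    (h3 : ∀ p q, F p = F q → (B p ∩ B q).Nonempty → p = q) : DSeparable X := by
  intro D hD
  choose x x1 x2 using fun p => (hD (F p)).inter_open_nonempty _ (h1 p).1 (h1 p).2
  refine ⟨fun n => x '' {p | F p = n}, fun n => ⟨?_, isDiscrete_iff_forall_mem_exists_isOpen.mpr ?_⟩,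
    dense_iff_inter_open.mpr fun W a b => ?_⟩
  · rintro _ ⟨p, rfl, rfl⟩
    exact x2 p
  · rintro _ ⟨p, hp, rfl⟩
    refine ⟨B p, (h1 p).1, subset_antisymm ?_ ?_⟩
    · rintro _ ⟨a, q, hq, rfl⟩
      rw [h3 p q (hp.trans hq.symm) ⟨_, a, x1 q⟩]
      rfl
    · rintro _ rfl
      exact ⟨x1 p, p, hp, rfl⟩
  · obtain ⟨p, hp⟩ := h2 W a b
    exact ⟨x p, hp (x1 p), mem_iUnion.mpr ⟨_, p, rfl, rfl⟩⟩

/-- From such a tree: a regular L-space whose square is D-separable. -/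
theorem result (h : ∃ (T : Type) (_ : PartialOrder T) (_ : WellFoundedLT T), Tree2 T) :
    ∃ (X : Type) (_ : TopologicalSpace X), T3Space X ∧ HereditarilyLindelofSpace X ∧
      ¬ SeparableSpace X ∧ DSeparable (X × X) := by
  classical
  obtain ⟨T, _, _, tr, un, ch, an, sp, no, spe⟩ := h
  have cmp : ∀ {x a b : T}, a ≤ x → b ≤ x → a ≤ b ∨ b ≤ a := fun {x a b} ha hb =>
    (tr x).total ha hb
  have mono : StrictMono (ht : T → Ordinal) := WellFoundedLT.rank_strictMono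
  let e : T → T → Bool := fun t s => decide (s ≤ t)
  letI : TopologicalSpace T := induced e inferInstance
  have emb : IsEmbedding e := ⟨⟨rfl⟩, fun s t h => le_antisymm
    (by simpa [e] using congrFun h s) (by simpa [e] using congrFun h t)⟩
  have op : ∀ t : T, IsOpen (Ici t) := fun t => by
    have : Ici t = (fun x => e x t) ⁻¹' {true} := by ext; simp [e]
    rw [this]
    exact (isOpen_discrete _).preimage ((continuous_apply t).comp emb.continuous)
  have nb : ∀ U : Set T, IsOpen U → ∀ t ∈ U, ∃ s, t < s ∧ Ici s ⊆ U := by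
    rintro _ ⟨V, hV, rfl⟩ t ht
    obtain ⟨I, u, u1, u2⟩ := isOpen_pi_iff.mp hV _ ht
    have : (⋃ i ∈ I, {s | t ⋖ s ∧ s ≤ i}).Finite := I.finite_toSet.biUnion fun i _ =>
      Set.Subsingleton.finite fun s hs s' hs' => (cmp hs.2 hs'.2).elim
        (fun k => (hs'.1.eq_or_eq hs.1.le k).resolve_left hs.1.ne')
        fun k => ((hs.1.eq_or_eq hs'.1.le k).resolve_left hs'.1.ne').symm
    obtain ⟨s, s1, s2⟩ := ((sp t).diff this).nonempty
    refine ⟨s, s1.lt, fun x hx => u2 fun i hi => ?_⟩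
    have : e x i = e t i := by
      refine decide_eq_decide.mpr ⟨fun k => ?_, fun k => k.trans (s1.le.trans hx)⟩
      have k1 : ¬ s ≤ i := fun c => s2 (mem_iUnion₂.mpr ⟨i, hi, s1, c⟩)
      rcases cmp k (s1.le.trans hx) with c | c
      · exact c
      · rcases s1.eq_or_eq c ((cmp k hx).resolve_right k1) with rfl | rfl
        exacts [le_rfl, absurd le_rfl k1]
    rw [this]
    exact (u1 i hi).2
  refine ⟨T, inferInstance, emb.t3Space, ⟨fun Y _ => isLindelof_of_countable_subcover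
    fun {ι} U u1 u2 => ?_⟩, fun ⟨S, s1, s2⟩ => ?_, ?_⟩
  · let D : Set T := {t | ∀ y ∈ Y, t ≤ y → ∃ i, Ici t ⊆ U i}
    have cA : {a | Minimal (· ∈ D) a}.Countable := an _ fun a ha b hb n k =>
      n (le_antisymm k (hb.2 ha.1 k))
    have key : ∀ y ∈ Y, ∃ i, y ∈ U i := fun y hy => mem_iUnion.mp (u2 hy)
    rcases Y.eq_empty_or_nonempty with rfl | ⟨y0, hy0⟩
    · exact ⟨∅, by simp⟩
    haveI : Nonempty ι := (key y0 hy0).nonempty
    choose! j hj using key
    have : ∀ a, ∃ i, (∃ i, Ici a ⊆ U i) → Ici a ⊆ U i := fun a => by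
      by_cases c : ∃ i, Ici a ⊆ U i
      · exact c.imp fun i hi _ => hi
      · exact ⟨j a, fun t => absurd t c⟩
    choose k hk using this
    refine ⟨k '' {a | Minimal (· ∈ D) a} ∪ j '' ⋃ a ∈ {a | Minimal (· ∈ D) a}, Iic a,
      (cA.image k).union ((cA.biUnion fun a _ => ch _ (tr a)).image j), fun y hy => ?_⟩
    obtain ⟨s, s1, s2⟩ := nb _ (u1 (j y)) y (hj y hy)
    obtain ⟨a, a1, a2⟩ := exists_minimal_le_of_wellFoundedLT (· ∈ D) s fun _ _ _ => ⟨_, s2⟩
    rcases cmp a1 s1.le with c | c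
    · exact mem_biUnion (Or.inl ⟨a, a2, rfl⟩) (hk a (a2.1 y hy c) c)
    · exact mem_biUnion (Or.inr ⟨y, mem_biUnion a2 c, rfl⟩) (hj y hy)
  · refine not_countable_univ ((s1.biUnion fun x _ => ch _ (tr x)).mono fun t _ => ?_)
    obtain ⟨x, a, b⟩ := s2.inter_open_nonempty _ (op t) ⟨t, le_rfl⟩
    exact mem_biUnion b a
  have nle : ∀ s t : T, s ≠ t → ht s = ht t → ¬ s ≤ t := fun s t a b c =>
    (mono (c.lt_of_ne a)).ne b
  have : ∀ s t : T, ∃ a, ¬ s ≤ t → a ≤ s ∧ ¬ a ≤ t ∧ ∀ x < a, x ≤ t := fun s t => by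
    by_cases c : s ≤ t
    · exact ⟨s, fun k => absurd c k⟩
    obtain ⟨a, a1, a2⟩ := exists_minimal_le_of_wellFoundedLT (fun x => ¬ x ≤ t) s c
    exact ⟨a, fun _ => ⟨a1, a2.1, fun x hx => not_not.mp fun k => hx.not_ge (a2.2 k hx.le)⟩⟩
  choose m hm using this
  have lo : ∀ s t : T, ¬ s ≤ t → ¬ t ≤ s → ∀ x, x < m s t → x < m t s := fun s t a b x hx => by
    have x1 := (hm s t a).2.2 x hx
    have x2 := hx.le.trans (hm s t a).1
    rcases cmp x1 (hm t s b).1 with c | c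
    · exact c.lt_of_ne fun k => (hm t s b).2.1 (k ▸ x2)
    · exact absurd (c.trans x2) (hm t s b).2.1
  have mh : ∀ s t : T, ¬ s ≤ t → ¬ t ≤ s → ht (m s t) = ht (m t s) := fun s t a b => by
    have : ∀ x, x < m s t ↔ x < m t s := fun x => ⟨lo s t a b x, lo t s b a x⟩
    unfold ht
    rw [IsWellFounded.rank_eq, IsWellFounded.rank_eq]
    exact (Equiv.subtypeEquivRight this).iSup_congr fun _ => rfl
  have ms : ∀ s t s' t' : T, ¬ s ≤ t → ¬ t ≤ s → s ≤ s' → t ≤ t' → m s' t' = m s t := by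
    intro s t s' t' a b c d
    have a' : ¬ s' ≤ t' := fun k => (cmp (c.trans k) d).elim a b
    have n1 : ¬ m s t ≤ t' := fun k => (cmp k d).elim (hm s t a).2.1 fun l => b (l.trans (hm s t a).1)
    rcases cmp (hm s' t' a').1 ((hm s t a).1.trans c) with k | k
    · exact k.eq_or_lt.resolve_right fun l => (hm s' t' a').2.1 (((hm s t a).2.2 _ l).trans d)
    · exact (k.eq_or_lt.resolve_right fun l => n1 ((hm s' t' a').2.2 _ l)).symm
  choose! f hf using spe
  refine dsep (P := {p : T × T // p.1 ≠ p.2 ∧ ht p.1 = ht p.2}) (fun p => Ici p.1.1 ×ˢ Ici p.1.2)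
    (fun p => f (m p.1.1 p.1.2) (m p.1.2 p.1.1) p.1.1 p.1.2)
    (fun p => ⟨(op _).prod (op _), p.1, le_rfl, le_rfl⟩) ?_ ?_
  · rintro W a ⟨⟨x, y⟩, b⟩
    obtain ⟨U, V, c, d, g, h, i⟩ := isOpen_prod_iff.mp a x y b
    obtain ⟨s, -, s2⟩ := nb U c x g
    obtain ⟨t, -, t2⟩ := nb V d y h
    obtain ⟨u, v, u1, v1, n1, n2⟩ : ∃ u v, s ≤ u ∧ t ≤ v ∧ ¬ u ≤ v ∧ ¬ v ≤ u := by
      have : ∀ z : T, ∃ u v, z ≤ u ∧ z ≤ v ∧ ¬ u ≤ v ∧ ¬ v ≤ u := fun z => by
        obtain ⟨u, hu, v, hv, n⟩ := (sp z).nontrivial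
        exact ⟨u, v, hu.le, hv.le, fun k => n ((hv.eq_or_eq hu.le k).resolve_left hu.ne'),
          fun k => n ((hu.eq_or_eq hv.le k).resolve_left hv.ne').symm⟩
      by_cases k : s ≤ t
      · obtain ⟨u, v, a, b, c⟩ := this t
        exact ⟨u, v, k.trans a, b, c⟩
      by_cases l : t ≤ s
      · obtain ⟨u, v, a, b, c⟩ := this s
        exact ⟨u, v, a, l.trans b, c⟩
      exact ⟨s, t, le_rfl, le_rfl, k, l⟩
    rcases le_total (ht u) (ht v) with k | k
    · obtain ⟨w, w1, w2⟩ := no u v k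
      exact ⟨⟨(w, v), fun l : w = v => n1 (l ▸ w1), w2⟩, fun z hz =>
        i ⟨s2 (u1.trans (w1.trans hz.1)), t2 (v1.trans hz.2)⟩⟩
    · obtain ⟨w, w1, w2⟩ := no v u k
      exact ⟨⟨(u, w), fun l : u = w => n2 (l ▸ w1), w2.symm⟩, fun z hz =>
        i ⟨s2 (u1.trans hz.1), t2 (v1.trans (w1.trans hz.2))⟩⟩
  · have main : ∀ s t s' t' : T, s ≠ t → ht s = ht t → ht s' = ht t' → s ≤ s' → t ≤ t' ∨ t' ≤ t →
        f (m s t) (m t s) s t = f (m s' t') (m t' s') s' t' → s = s' ∧ t = t' := by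
      intro s t s' t' a b c d g h
      have n1 := nle s t a b
      have n2 := nle t s a.symm b.symm
      rcases d.eq_or_lt with rfl | k
      · refine ⟨rfl, ?_⟩
        by_contra l
        exact g.elim (nle _ _ l (b.symm.trans c)) (nle _ _ (Ne.symm l) (c.symm.trans b))
      have l : t < t' := by
        have : ht t < ht t' := b ▸ c ▸ mono k
        exact (g.resolve_right fun r => this.not_ge (mono.monotone r)).lt_of_ne
          fun r => this.ne (by rw [r])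
      rw [ms s t s' t' n1 n2 d l.le, ms t s t' s' n2 n1 l.le d] at h
      exact absurd h (hf _ _ (fun r : m s t = m t s => (hm s t n1).2.1 (r ▸ (hm t s n2).1)) (mh s t n1 n2)
        s t s' t' (hm s t n1).1 (hm t s n2).1 b k l c)
    rintro ⟨⟨s, t⟩, p1, p2⟩ ⟨⟨s', t'⟩, q1, q2⟩ h ⟨z, a, b⟩
    rcases cmp a.1 b.1 with k | k
    · obtain ⟨rfl, rfl⟩ := main s t s' t' p1 p2 q2 k (cmp a.2 b.2) h
      rfl
    · obtain ⟨rfl, rfl⟩ := main s' t' s t q1 q2 p2 k (cmp b.2 a.2) h.symm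
      rfl

end Pool.Agent.Results.MP_ffd784_gt.Suslin
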